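import Mathlib
import Pool.Agent.R421.Z8.Fin

/-!
# The ranks of the elliptic curves with a rational point of order 8, by height

All elliptic curves over `ℚ` with a rational point of order 8, ordered by height: their number
tends to infinity with the height, and for some `α > 0` the average of `(2 ^ rank) ^ α` over them
is bounded. In particular the average rank, and the average of every power of the rank, is bounded,
and the proportion of the curves of rank at least `r` is at most `C / 2 ^ (α r)`, uniformly in the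
height.
-/

set_option autoImplicit false

namespace Pool.Agent.Results.MP_157626_nt.TorsionEightTails

open Finset Filter

/-- the curve `y² = x³ + A x + B` over `ℚ` -/
def E (A B : ℤ) : WeierstrassCurve ℚ := ⟨0, 0, 0, (A : ℚ), (B : ℚ)⟩

open Classical in
/-- The pairs `(A, B)` of integers such that `4 A³ + 27 B² ≠ 0`, there is no prime `p` with
`p⁴ ∣ A` and `p⁶ ∣ B`, the height `max (4 |A|³) (27 B²)` is at most `H`, and `y² = x³ + A x + B` has
a rational point of order 8. (The bounds `|A|, |B| ≤ H` follow from the bound of the height. Every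
elliptic curve over `ℚ` is isomorphic to `E A B` for exactly one pair with the first two
properties.) -/
noncomputable def Fam (H : ℕ) : Finset (ℤ × ℤ) :=
  ((Icc (-(H : ℤ)) H) ×ˢ (Icc (-(H : ℤ)) H)).filter (fun c : ℤ × ℤ =>
    4 * c.1 ^ 3 + 27 * c.2 ^ 2 ≠ 0 ∧ 4 * |c.1| ^ 3 ≤ H ∧ 27 * c.2 ^ 2 ≤ H ∧
    (∀ p : ℕ, p.Prime → ¬ ((p : ℤ) ^ 4 ∣ c.1 ∧ (p : ℤ) ^ 6 ∣ c.2)) ∧
    ∃ P : (E c.1 c.2).toAffine.Point, addOrderOf P = 8)

lemma Fam_eq (H : ℕ) : Fam H = Pool.Agent.R421.HF.CvN 8 H := rfl

/-- **Theorem.** The number of the elliptic curves over `ℚ` of height at most `H` with a rational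
point of order 8 tends to infinity with `H`, and for some `α > 0` the average of
`(2 ^ rank) ^ α` over them is bounded. -/
theorem result : Tendsto (fun H : ℕ => (Fam H).card) atTop atTop ∧
    ∃ α : ℝ, 0 < α ∧ ∃ C : ℝ, ∀ H : ℕ,
    ∑ c ∈ Fam H, ((2 : ℝ) ^ Module.finrank ℤ (E c.1 c.2).toAffine.Point) ^ α ≤
      C * (Fam H).card := by
  simp only [Fam_eq]
  exact ⟨Pool.Agent.R421.HF.tendsto_of_low' (by norm_num) Pool.Agent.R421.Z8.low8,
    Pool.Agent.R421.Z8.main8⟩

end Pool.Agent.Results.MP_157626_nt.TorsionEightTails
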